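import Pool.Agent.W231.M.Core

set_option autoImplicit false

/-!
The degree of the exceptional set.
-/

namespace Pool.Agent.W231.M

open NumberField IsDedekindDomain Height Finset Polynomial Pool.Agent.W231.V

variable {K : Type*} [Field K] [NumberField K]

omit [NumberField K] in
lemma eventually_unit {Ω : Type*} [Field Ω] [Algebra K Ω] (R : Polynomial Ω) (hR : R ≠ 0) {u : K}
    (hu : u ≠ 0) (hord : ∀ n : ℕ, 0 < n → u ^ n ≠ 1) :
    ∀ᶠ m : ℕ in Filter.atTop, R.eval (algebraMap K Ω (u ^ m)) ≠ 0 := by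
  rw [← Nat.cofinite_eq_atTop, Filter.eventually_cofinite]
  have h1 : {m : ℕ | ¬ R.eval (algebraMap K Ω (u ^ m)) ≠ 0} =
      (fun m : ℕ => algebraMap K Ω (u ^ m)) ⁻¹' {x | R.IsRoot x} := by
    ext m
    simp [Polynomial.IsRoot]
  rw [h1]
  refine Set.Finite.preimage (fun a _ b _ h => ?_) (Polynomial.finite_setOfPred_isRoot hR)
  have h2 : u ^ a = u ^ b := (algebraMap K Ω).injective h
  have key : ∀ a b : ℕ, a < b → u ^ a = u ^ b → False := by
    intro a b hab heq
    apply hord (b - a) (by omega)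
    have h1 : u ^ a * u ^ (b - a) = u ^ a * 1 := by
      rw [← pow_add, mul_one, Nat.add_sub_cancel' hab.le, heq]
    exact mul_left_cancel₀ (pow_ne_zero a hu) h1
  rcases lt_trichotomy a b with h3 | h3 | h3
  · exact (key a b h3 h2).elim
  · exact h3
  · exact (key b a h3 h2.symm).elim

theorem main3 (U : Finset (HeightOneSpectrum (𝓞 K))) {u : K} (hu : u ≠ 0)
    (hU : ∀ v, v ∉ U → fv v u = 1) (hord : ∀ n : ℕ, 0 < n → u ^ n ≠ 1) (α β : K)
    {ι : Type*} [Fintype ι] (F : ι → MvPolynomial (Fin 3) K) (d : ι → ℕ)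
    (hF : ∀ i, (F i).IsHomogeneous (d i)) (hF0 : ∀ i, F i ≠ 0)
    (i1 i2 i3 : ι) (h12 : i1 ≠ i2) (h13 : i1 ≠ i3) (h23 : i2 ≠ i3)
    (hF1 : F i1 = MvPolynomial.X 0 * MvPolynomial.X 1 - MvPolynomial.X 2 ^ 2)
    (hF2 : F i2 = MvPolynomial.X 2)
    (hF3 : F i3 = MvPolynomial.C α * MvPolynomial.X 0 + MvPolynomial.C β * MvPolynomial.X 1 -
      MvPolynomial.C (α + β) * MvPolynomial.X 2)
    {Ω : Type*} [Field Ω] [Algebra K Ω] (G : MvPolynomial (Fin 3) Ω) (hG : G ≠ 0) {δ : ℕ}
    (hGδ : G.IsHomogeneous δ) {ε : ℝ} (C : ℝ) {k : ℕ} (hk : 1 ≤ k) (hεk : ε * k < 1)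
    (hlt : 2 * (δ + ∑ i, d i) < 2 ^ k.divisors.card) :
    ∃ x : Fin 3 → K, x ≠ 0 ∧ (∀ i, MvPolynomial.eval x (F i) ≠ 0) ∧
      MvPolynomial.eval (fun j => algebraMap K Ω (x j)) G ≠ 0 ∧
      ε * logHeight x + C < ∑ i, (d i * LamSup U x - Lam U (MvPolynomial.eval x (F i))) -
        3 * logHeight x := by
  classical
  have : CharZero Ω := charZero_of_injective_algebraMap (algebraMap K Ω).injective
  set φ : K →+* Ω := algebraMap K Ω with hφ
  set G' : MvPolynomial (Fin 3) Ω := G * ∏ i, MvPolynomial.map φ (F i) with hG'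
  have hG'0 : G' ≠ 0 := by
    refine mul_ne_zero hG (Finset.prod_ne_zero_iff.2 fun i _ => ?_)
    intro h
    exact hF0 i (MvPolynomial.map_injective φ φ.injective (by rw [h, map_zero]))
  have hG'δ : G'.IsHomogeneous (δ + ∑ i, d i) :=
    hGδ.mul (MvPolynomial.IsHomogeneous.prod _ _ _ fun i _ => (hF i).map φ)
  -- a curve on which `G'` does not vanish
  obtain ⟨T, hT, hne⟩ : ∃ T, T ⊆ k.divisors ∧ rst (fac T) (fac (k.divisors \ T)) G' ≠ 0 := by
    by_contra hcon
    push Not at hcon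
    have h1 := card_le G' hG'0 hG'δ hk (facs k) (by
      intro P hP
      unfold facs at hP
      obtain ⟨T, hT, rfl⟩ := Finset.mem_image.1 hP
      rw [Finset.mem_powerset] at hT
      exact ⟨fac (k.divisors \ T), fac_mul hk hT, hcon T hT⟩)
    rw [card_facs] at h1
    omega
  have hT' : k.divisors \ T ⊆ k.divisors := Finset.sdiff_subset
  obtain ⟨C', hC'⟩ := core3 U (fac T) (fac (k.divisors \ T)) (fac_mul hk hT) (fac_natDegree hk hT)
    (fac_natDegree hk hT') (fac_eval_zero hT) (fac_eval_zero hT') α β F d hF i1 i2 i3 h12 h13 h23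
    hF1 hF2 hF3
  have hpos := height_pos hu hord
  set ε' : ℝ := max ε 0 with hε'
  have hε'0 : 0 ≤ ε' := le_max_right _ _
  have hk0 : (0 : ℝ) < k := by exact_mod_cast (by omega : 0 < k)
  have hε'k : ε' * k < 1 := by
    rcases max_cases ε 0 with ⟨h, _⟩ | ⟨h, _⟩
    · rw [hε', h]; exact hεk
    · rw [hε', h]; linarith
  have hev1 := eventually_unit _ hne hu hord
  have hev2 : ∀ᶠ m : ℕ in Filter.atTop, C + C' + ε' * C' + 1 ≤
      (logHeight₁ u * (1 - ε' * k)) * m := by
    have hp : 0 < logHeight₁ u * (1 - ε' * k) := mul_pos hpos (by linarith)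
    exact (tendsto_natCast_atTop_atTop.const_mul_atTop hp).eventually_ge_atTop _
  obtain ⟨m, hm1, hm2⟩ := (hev1.and hev2).exists
  set t : K := u ^ m with ht
  have ht0 : t ≠ 0 := pow_ne_zero m hu
  have htU : ∀ v, v ∉ U → fv v t = 1 := by
    intro v hv
    rw [ht, map_pow, hU v hv, one_pow]
  set x : Fin 3 → K := pnt (fac T) (fac (k.divisors \ T)) t with hx
  have hGx : MvPolynomial.eval (fun j => φ (x j)) G' ≠ 0 := by
    rw [rst_eval] at hm1
    have e : (![aeval (φ t) (fac T), aeval (φ t) (fac (k.divisors \ T)), 1] : Fin 3 → Ω) =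
        fun j => φ (x j) := by
      funext j
      fin_cases j
      · change aeval (φ t) (fac T) = φ (aeval t (fac T))
        rw [aeval_eq, aeval_eq, Polynomial.eval_map, Polynomial.eval_map, Polynomial.hom_eval₂]
        congr 1
        exact RingHom.ext_int _ _
      · change aeval (φ t) (fac (k.divisors \ T)) = φ (aeval t (fac (k.divisors \ T)))
        rw [aeval_eq, aeval_eq, Polynomial.eval_map, Polynomial.eval_map, Polynomial.hom_eval₂]
        congr 1
        exact RingHom.ext_int _ _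
      · change (1 : Ω) = φ 1
        rw [map_one]
    rw [e] at hm1
    exact hm1
  rw [hG', map_mul, map_prod] at hGx
  have hF' : ∀ i, MvPolynomial.eval x (F i) ≠ 0 := by
    intro i h0
    have h1 := right_ne_zero_of_mul hGx
    rw [Finset.prod_ne_zero_iff] at h1
    apply h1 i (Finset.mem_univ i)
    rw [MvPolynomial.eval_map]
    have h2 : φ (MvPolynomial.eval x (F i)) = MvPolynomial.eval₂ φ (fun j => φ (x j)) (F i) := by
      have h3 : MvPolynomial.eval x (F i) = MvPolynomial.eval₂ (RingHom.id K) x (F i) := rfl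
      rw [h3, MvPolynomial.hom_eval₂, RingHom.comp_id]
    rw [← h2, h0, map_zero]
  obtain ⟨k1, k2⟩ := hC' t ht0 htU hF'
  rw [← hx] at k1 k2
  have hT1 : logHeight₁ t = m * logHeight₁ u := by rw [ht, logHeight₁_pow]
  refine ⟨x, ?_, hF', left_ne_zero_of_mul hGx, ?_⟩
  · intro h
    have := congrFun h 2
    simp [hx, pnt] at this
  · have hh : 0 ≤ logHeight x := logHeight_nonneg x
    have a1 : ε * logHeight x ≤ ε' * logHeight x :=
      mul_le_mul_of_nonneg_right (le_max_left _ _) hh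
    have a2 : ε' * logHeight x ≤ ε' * (C' + k * logHeight₁ t) :=
      mul_le_mul_of_nonneg_left k1 hε'0
    have a3 : logHeight₁ u * (1 - ε' * k) * m = logHeight₁ t * (1 - ε' * k) := by
      rw [hT1]; ring
    rw [a3] at hm2
    nlinarith

end Pool.Agent.W231.M
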