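import Pool.Agent.W231.M.Hyp
import Pool.Agent.W231.V.Quad

set_option autoImplicit false

/-!
Sums of local terms; local inequalities.
-/

namespace Pool.Agent.W231.M

open NumberField IsDedekindDomain Height Finset Polynomial Pool.Agent.W231.V

variable {K : Type*} [Field K] [NumberField K]

/-- sums over the infinite places and the finite places in `U` -/
noncomputable def Sm (U : Finset (HeightOneSpectrum (𝓞 K))) (φ : AbsoluteValue K ℝ → ℝ) : ℝ :=
  ∑ w : InfinitePlace K, (w.mult : ℝ) * φ w.1 + ∑ v ∈ U, φ (fv v)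

lemma Lam_eq (U : Finset (HeightOneSpectrum (𝓞 K))) (y : K) :
    Lam U y = Sm U fun f => Real.log (f y) := rfl

lemma LamSup_eq {σ : Type*} (U : Finset (HeightOneSpectrum (𝓞 K))) (x : σ → K) :
    LamSup U x = Sm U fun f => Real.log (⨆ j, f (x j)) := rfl

lemma Sm_mono (U : Finset (HeightOneSpectrum (𝓞 K))) {φ ψ : AbsoluteValue K ℝ → ℝ}
    (h : ∀ f, φ f ≤ ψ f) : Sm U φ ≤ Sm U ψ :=
  add_le_add (sum_le_sum fun _ _ => mul_le_mul_of_nonneg_left (h _) (Nat.cast_nonneg _))
    (sum_le_sum fun _ _ => h _)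

lemma Sm_add (U : Finset (HeightOneSpectrum (𝓞 K))) (φ ψ : AbsoluteValue K ℝ → ℝ) :
    Sm U (fun f => φ f + ψ f) = Sm U φ + Sm U ψ := by
  unfold Sm
  simp only [mul_add, sum_add_distrib]
  ring

lemma Sm_sub (U : Finset (HeightOneSpectrum (𝓞 K))) (φ ψ : AbsoluteValue K ℝ → ℝ) :
    Sm U (fun f => φ f - ψ f) = Sm U φ - Sm U ψ := by
  unfold Sm
  simp only [mul_sub, sum_sub_distrib]
  ring

lemma Sm_smul (U : Finset (HeightOneSpectrum (𝓞 K))) (c : ℝ) (φ : AbsoluteValue K ℝ → ℝ) :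
    Sm U (fun f => c * φ f) = c * Sm U φ := by
  unfold Sm
  rw [mul_add, mul_sum, mul_sum]
  congr 1
  exact sum_congr rfl fun w _ => by ring

lemma height_eq {σ : Type*} [Finite σ] [Nonempty σ] (U : Finset (HeightOneSpectrum (𝓞 K)))
    (x : σ → K) (hx : x ≠ 0) (h : ∀ v, v ∉ U → ⨆ j, fv v (x j) = 1) :
    logHeight x = LamSup U x := by
  classical
  obtain ⟨j, hj⟩ := Function.ne_iff.1 hx
  have hj' : x j ≠ 0 := hj
  rw [logHeight_eq_log_mulHeight, NumberField.mulHeight_eq hx]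
  set g : HeightOneSpectrum (𝓞 K) → ℝ := fun v => ⨆ j, fv v (x j) with hg
  have hgj : ∀ v, fv v (x j) ≤ g v := fun v =>
    le_ciSup (f := fun j => fv v (x j)) (Set.finite_range _).bddAbove j
  have hg0 : ∀ v, 0 < g v := fun v => ((fv v).pos_iff.2 hj').trans_le (hgj v)
  have e : ∏ᶠ v : FinitePlace K, ⨆ i, v (x i) = ∏ᶠ v : HeightOneSpectrum (𝓞 K), g v := by
    rw [← finprod_comp_equiv (FinitePlace.equivHeightOneSpectrum (K := K)).symm]
    rfl
  have e2 : ∏ᶠ v : HeightOneSpectrum (𝓞 K), g v = ∏ v ∈ U, g v := by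
    refine finprod_eq_prod_of_mulSupport_subset _ fun v hv => ?_
    by_contra hc
    exact hv (h v hc)
  have hw0 : ∀ w : InfinitePlace K, 0 < ⨆ i, w (x i) := fun w =>
    (w.pos_iff.2 hj').trans_le (le_ciSup (f := fun j => w (x j)) (Set.finite_range _).bddAbove j)
  have h4 : 0 < ∏ w : InfinitePlace K, (⨆ i, w (x i)) ^ w.mult :=
    prod_pos fun w _ => pow_pos (hw0 w) _
  have h5 : 0 < ∏ v ∈ U, g v := prod_pos fun v _ => hg0 v
  rw [e, e2, Real.log_mul h4.ne' h5.ne']
  unfold LamSup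
  congr 1
  · rw [Real.log_prod fun w _ => (pow_pos (hw0 w) _).ne']
    simp only [Real.log_pow]
  · rw [Real.log_prod fun v _ => (hg0 v).ne']

lemma height₁_eq (U : Finset (HeightOneSpectrum (𝓞 K))) (y : K) (h : ∀ v, v ∉ U → fv v y ≤ 1) :
    logHeight₁ y = Sm U fun f => Real.posLog (f y) := by
  rw [NumberField.logHeight₁_eq]
  have h1 : ∑ᶠ w : FinitePlace K, Real.posLog (w y) =
      ∑ᶠ v : HeightOneSpectrum (𝓞 K), Real.posLog (fv v y) := by
    rw [← finsum_comp_equiv (FinitePlace.equivHeightOneSpectrum (K := K)).symm]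
    rfl
  have h2 : ∑ᶠ v : HeightOneSpectrum (𝓞 K), Real.posLog (fv v y) =
      ∑ v ∈ U, Real.posLog (fv v y) := by
    refine finsum_eq_sum_of_support_subset _ fun v hv => ?_
    by_contra hc
    apply hv
    change Real.posLog (fv v y) = 0
    rw [Real.posLog_eq_log_max_one ((fv v).nonneg y), max_eq_left (h v hc), Real.log_one]
  rw [h1, h2]
  rfl

omit [NumberField K] in
lemma abv_poly (f : AbsoluteValue K ℝ) (P : K[X]) {e : ℕ} (he : P.natDegree ≤ e) (t : K) :
    f (P.eval t) ≤ (∑ i ∈ range (e + 1), f (P.coeff i)) * max 1 (f t) ^ e := by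
  have hm : (1 : ℝ) ≤ max 1 (f t) := le_max_left _ _
  rw [Polynomial.eval_eq_sum_range' (Nat.lt_succ_of_le he), Finset.sum_mul]
  refine (f.sum_le _ _).trans (Finset.sum_le_sum fun i hi => ?_)
  rw [map_mul, map_pow]
  refine mul_le_mul_of_nonneg_left ?_ (f.nonneg _)
  calc f t ^ i ≤ max 1 (f t) ^ i := pow_le_pow_left₀ (f.nonneg _) (le_max_right _ _) _
    _ ≤ max 1 (f t) ^ e := pow_le_pow_right₀ hm (by rw [mem_range] at hi; omega)

omit [NumberField K] in
lemma abv_mv (f : AbsoluteValue K ℝ) {σ : Type*} [Finite σ] (F : MvPolynomial σ K) {d : ℕ}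
    (hF : F.IsHomogeneous d) (x : σ → K) :
    f (MvPolynomial.eval x F) ≤ (∑ m ∈ F.support, f (F.coeff m)) * (⨆ j, f (x j)) ^ d := by
  have hle : ∀ j, f (x j) ≤ ⨆ j, f (x j) := fun j =>
    le_ciSup (f := fun j => f (x j)) (Set.finite_range _).bddAbove j
  rw [MvPolynomial.eval_eq, Finset.sum_mul]
  refine (f.sum_le _ _).trans (Finset.sum_le_sum fun m hm => ?_)
  rw [map_mul]
  refine mul_le_mul_of_nonneg_left ?_ (f.nonneg _)
  rw [map_prod]
  have h1 : m.degree = d := by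
    have := hF (MvPolynomial.mem_support_iff.1 hm)
    exact (DFunLike.congr_fun (Finsupp.degree_eq_weight_one (σ := σ) (R := ℕ)) m).trans this
  have h2 : ∑ i ∈ m.support, m i = d := by rw [← h1]; rfl
  rw [← h2, ← Finset.prod_pow_eq_pow_sum]
  refine Finset.prod_le_prod (fun i _ => f.nonneg _) fun i _ => ?_
  rw [map_pow]
  exact pow_le_pow_left₀ (f.nonneg _) (hle i) _

omit [NumberField K] in
lemma posLog_abv (f : AbsoluteValue K ℝ) (y : K) :
    Real.posLog (f y) = Real.log (max 1 (f y)) := Real.posLog_eq_log_max_one (f.nonneg y)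

/-- heights of `S`-units of infinite order -/
lemma height_pos {u : K} (hu : u ≠ 0) (h : ∀ n : ℕ, 0 < n → u ^ n ≠ 1) : 0 < logHeight₁ u := by
  by_contra hcon
  have h0 : logHeight₁ u = 0 := le_antisymm (not_lt.1 hcon) (zero_le_logHeight₁ u)
  have hfin : {x : K | logHeight₁ x ≤ 0}.Finite :=
    Northcott.finite_le (h := logHeight₁ (K := K)) 0
  have hmaps : ∀ n : ℕ, u ^ n ∈ {x : K | logHeight₁ x ≤ 0} := by
    intro n
    simp only [Set.mem_ofPred_eq]
    rw [logHeight₁_pow, h0, mul_zero]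
  obtain ⟨a, b, hab, heq⟩ : ∃ a b : ℕ, a < b ∧ u ^ a = u ^ b := by
    by_contra hc
    push Not at hc
    have hinj : Function.Injective fun n : ℕ => u ^ n := by
      intro a b hab
      rcases lt_trichotomy a b with h1 | h1 | h1
      · exact absurd hab (hc a b h1)
      · exact h1
      · exact absurd hab.symm (hc b a h1)
    exact Set.infinite_of_injective_forall_mem hinj hmaps hfin
  apply h (b - a) (by omega)
  have h1 : u ^ a * u ^ (b - a) = u ^ a * 1 := by
    rw [← pow_add, mul_one, Nat.add_sub_cancel' hab.le, heq]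
  exact mul_left_cancel₀ (pow_ne_zero a hu) h1

end Pool.Agent.W231.M
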