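import Pool.Agent.W231.M.Place

set_option autoImplicit false

/-!
The proximity of the points `(A(t) : B(t) : 1)`, `A B = 1 - X ^ k`, `t` an `S`-unit, to a divisor
containing the conic `x y = z ^ 2`, the line `z = 0` and a line through `(1 : 1 : 1)`.
-/

namespace Pool.Agent.W231.M

open NumberField IsDedekindDomain Height Finset Polynomial Pool.Agent.W231.V

variable {K : Type*} [Field K] [NumberField K]

/-- the point of the curve -/
noncomputable def pnt (P Q : ℤ[X]) (t : K) : Fin 3 → K := ![aeval t P, aeval t Q, 1]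

section local_bounds

omit [NumberField K]

lemma aeval_eq (P : ℤ[X]) (t : K) : aeval t P = (P.map (Int.castRingHom K)).eval t := by
  rw [aeval_def, eval_map]
  rfl

lemma one_le_sup (f : AbsoluteValue K ℝ) (P Q : ℤ[X]) (t : K) : 1 ≤ ⨆ j, f (pnt P Q t j) := by
  have h := le_ciSup (f := fun j => f (pnt P Q t j)) (Set.finite_range _).bddAbove 2
  have h2 : f (pnt P Q t 2) = 1 := by simp [pnt]
  rw [h2] at h
  exact h

/-- (a) the size of the point -/
lemma sup_le (P Q : ℤ[X]) {k : ℕ} (hP : P.natDegree ≤ k) (hQ : Q.natDegree ≤ k) :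
    ∃ c : AbsoluteValue K ℝ → ℝ, (∀ f, 1 ≤ c f) ∧ ∀ f t,
      ⨆ j, f (pnt P Q t j) ≤ c f * max 1 (f t) ^ k := by
  set P' : K[X] := P.map (Int.castRingHom K) with hP'
  set Q' : K[X] := Q.map (Int.castRingHom K) with hQ'
  set c : AbsoluteValue K ℝ → ℝ := fun f => 1 + ∑ i ∈ range (k + 1), f (P'.coeff i) +
    ∑ i ∈ range (k + 1), f (Q'.coeff i) with hc
  have n1 : ∀ f : AbsoluteValue K ℝ, 0 ≤ ∑ i ∈ range (k + 1), f (P'.coeff i) :=
    fun f => Finset.sum_nonneg fun i _ => f.nonneg _
  have n2 : ∀ f : AbsoluteValue K ℝ, 0 ≤ ∑ i ∈ range (k + 1), f (Q'.coeff i) :=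
    fun f => Finset.sum_nonneg fun i _ => f.nonneg _
  refine ⟨c, fun f => ?_, fun f t => ciSup_le fun j => ?_⟩
  · simp only [hc]
    linarith [n1 f, n2 f]
  · have hm : (1 : ℝ) ≤ max 1 (f t) ^ k := one_le_pow₀ (le_max_left _ _)
    have hm0 : (0 : ℝ) ≤ max 1 (f t) ^ k := by linarith
    have a1 := abv_poly f P' ((natDegree_map_le).trans hP) t
    have a2 := abv_poly f Q' ((natDegree_map_le).trans hQ) t
    have a3 := mul_nonneg (n1 f) hm0
    have a4 := mul_nonneg (n2 f) hm0
    have e : c f * max 1 (f t) ^ k = max 1 (f t) ^ k +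
        (∑ i ∈ range (k + 1), f (P'.coeff i)) * max 1 (f t) ^ k +
        (∑ i ∈ range (k + 1), f (Q'.coeff i)) * max 1 (f t) ^ k := by
      simp only [hc]; ring
    rw [e]
    fin_cases j
    · change f (aeval t P) ≤ _
      rw [aeval_eq]
      linarith
    · change f (aeval t Q) ≤ _
      rw [aeval_eq]
      linarith
    · change f 1 ≤ _
      rw [map_one]
      linarith

/-- (b) the value of the linear form -/
lemma line_le (P Q : ℤ[X]) (hP : P.eval 0 = 1) (hQ : Q.eval 0 = 1) (α β : K) :
    ∃ (W : K[X]) (c : AbsoluteValue K ℝ → ℝ), (∀ f, 1 ≤ c f) ∧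
      (∀ t, α * aeval t P + β * aeval t Q - (α + β) = t * W.eval t) ∧
      ∀ f t, f (W.eval t) * max 1 (f t) ≤ c f * ⨆ j, f (pnt P Q t j) := by
  have hX : ∀ R : ℤ[X], R.eval 0 = 1 → X ∣ R.map (Int.castRingHom K) - 1 := by
    intro R hR
    rw [X_dvd_iff, coeff_zero_eq_eval_zero, eval_sub, eval_one, eval_zero_map, hR]
    simp
  obtain ⟨P1, hP1⟩ := hX P hP
  obtain ⟨Q1, hQ1⟩ := hX Q hQ
  set W : K[X] := C α * P1 + C β * Q1 with hW
  have hWt : ∀ t, α * aeval t P + β * aeval t Q - (α + β) = t * W.eval t := by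
    intro t
    have e1 := congrArg (eval t) hP1
    have e2 := congrArg (eval t) hQ1
    simp only [eval_sub, eval_one, eval_mul, eval_X] at e1 e2
    rw [aeval_eq, aeval_eq, hW, eval_add, eval_mul, eval_mul, eval_C, eval_C]
    linear_combination α * e1 + β * e2
  set e := W.natDegree with he
  set c : AbsoluteValue K ℝ → ℝ := fun f => 1 + ∑ i ∈ range (e + 1), f (W.coeff i) +
    2 * (f α + f β) with hc
  have n1 : ∀ f : AbsoluteValue K ℝ, 0 ≤ ∑ i ∈ range (e + 1), f (W.coeff i) :=
    fun f => Finset.sum_nonneg fun i _ => f.nonneg _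
  refine ⟨W, c, fun f => ?_, hWt, fun f t => ?_⟩
  · simp only [hc]
    linarith [n1 f, f.nonneg α, f.nonneg β]
  · set s := ⨆ j, f (pnt P Q t j) with hs
    have hs1 : 1 ≤ s := one_le_sup f P Q t
    have hα := f.nonneg α
    have hβ := f.nonneg β
    rcases le_total (f t) 1 with h | h
    · rw [max_eq_left h, mul_one]
      have a1 := abv_poly f W le_rfl t
      rw [max_eq_left h, one_pow, mul_one] at a1
      have : c f * s = s + (∑ i ∈ range (e + 1), f (W.coeff i)) * s + 2 * (f α + f β) * s := by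
        simp only [hc]; ring
      rw [this]
      have b1 : (∑ i ∈ range (e + 1), f (W.coeff i)) ≤
          (∑ i ∈ range (e + 1), f (W.coeff i)) * s := le_mul_of_one_le_right (n1 f) hs1
      have b2 : 0 ≤ 2 * (f α + f β) * s := by positivity
      linarith
    · rw [max_eq_right h, mul_comm, ← map_mul, ← hWt]
      have l1 : f (aeval t P) ≤ s := le_ciSup (f := fun j => f (pnt P Q t j))
        (Set.finite_range _).bddAbove 0
      have l2 : f (aeval t Q) ≤ s := le_ciSup (f := fun j => f (pnt P Q t j))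
        (Set.finite_range _).bddAbove 1
      have a1 : f (α * aeval t P + β * aeval t Q - (α + β)) ≤
          f α * f (aeval t P) + f β * f (aeval t Q) + (f α + f β) := by
        have c1 : f (α * aeval t P + β * aeval t Q - (α + β)) ≤
            f (α * aeval t P + β * aeval t Q) + f (α + β) := by
          have := f.add_le (α * aeval t P + β * aeval t Q) (-(α + β))
          rw [map_neg_eq_map, ← sub_eq_add_neg] at this
          exact this
        have c2 := f.add_le (α * aeval t P) (β * aeval t Q)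
        have c3 := f.add_le α β
        rw [map_mul, map_mul] at c2
        linarith
      have a2 : f α * f (aeval t P) ≤ f α * s := mul_le_mul_of_nonneg_left l1 hα
      have a3 : f β * f (aeval t Q) ≤ f β * s := mul_le_mul_of_nonneg_left l2 hβ
      have a4 : f α + f β ≤ (f α + f β) * s := le_mul_of_one_le_right (by linarith) hs1
      have : c f * s = s + (∑ i ∈ range (e + 1), f (W.coeff i)) * s +
          2 * (f α * s + f β * s) := by
        simp only [hc]; ring
      rw [this]
      have b1 : 0 ≤ (∑ i ∈ range (e + 1), f (W.coeff i)) * s :=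
        mul_nonneg (n1 f) (by linarith)
      nlinarith

end local_bounds

theorem core3 (U : Finset (HeightOneSpectrum (𝓞 K))) {k : ℕ} (P Q : ℤ[X])
    (hPQ : P * Q = 1 - X ^ k) (hPk : P.natDegree ≤ k) (hQk : Q.natDegree ≤ k)
    (hP : P.eval 0 = 1) (hQ : Q.eval 0 = 1) (α β : K) {ι : Type*} [Fintype ι]
    (F : ι → MvPolynomial (Fin 3) K) (d : ι → ℕ) (hF : ∀ i, (F i).IsHomogeneous (d i))
    (i1 i2 i3 : ι) (h12 : i1 ≠ i2) (h13 : i1 ≠ i3) (h23 : i2 ≠ i3)
    (hF1 : F i1 = MvPolynomial.X 0 * MvPolynomial.X 1 - MvPolynomial.X 2 ^ 2)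
    (hF2 : F i2 = MvPolynomial.X 2)
    (hF3 : F i3 = MvPolynomial.C α * MvPolynomial.X 0 + MvPolynomial.C β * MvPolynomial.X 1 -
      MvPolynomial.C (α + β) * MvPolynomial.X 2) :
    ∃ C' : ℝ, ∀ t : K, t ≠ 0 → (∀ v, v ∉ U → fv v t = 1) →
      (∀ i, MvPolynomial.eval (pnt P Q t) (F i) ≠ 0) →
      logHeight (pnt P Q t) ≤ C' + k * logHeight₁ t ∧
      3 * logHeight (pnt P Q t) + logHeight₁ t - C' ≤
        ∑ i, (d i * LamSup U (pnt P Q t) - Lam U (MvPolynomial.eval (pnt P Q t) (F i))) := by
  classical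
  obtain ⟨c1, hc1, hsup⟩ := sup_le (K := K) P Q hPk hQk
  obtain ⟨W, c2, hc2, hW, hWle⟩ := line_le (K := K) P Q hP hQ α β
  -- the degrees
  have hpt2 : MvPolynomial.eval (![0, 0, 1] : Fin 3 → K) (F i1) ≠ 0 := by
    rw [hF1]; simp
  have hd1 : d i1 = 2 := by
    refine MvPolynomial.IsHomogeneous.inj_right (hF i1) ?_ (fun h => hpt2 (by rw [h, map_zero]))
    rw [hF1]
    exact ((MvPolynomial.isHomogeneous_X K 0).mul (MvPolynomial.isHomogeneous_X K 1)).sub
      ((MvPolynomial.isHomogeneous_X K 2).pow 2)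
  have hd2 : d i2 = 1 := by
    refine MvPolynomial.IsHomogeneous.inj_right (hF i2) ?_ ?_
    · rw [hF2]; exact MvPolynomial.isHomogeneous_X K 2
    · rw [hF2]; exact MvPolynomial.X_ne_zero 2
  set c3 : ι → AbsoluteValue K ℝ → ℝ := fun i f => 1 + ∑ m ∈ (F i).support, f ((F i).coeff m)
    with hc3
  have n3 : ∀ i (f : AbsoluteValue K ℝ), 0 ≤ ∑ m ∈ (F i).support, f ((F i).coeff m) :=
    fun i f => Finset.sum_nonneg fun m _ => f.nonneg _
  set Z1 : ℝ := Sm U fun f => Real.log (c1 f) with hZ1
  set Z2 : ℝ := Sm U fun f => Real.log (c2 f) with hZ2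
  set Z3 : ι → ℝ := fun i => Sm U fun f => Real.log (c3 i f) with hZ3
  have hZ3nn : ∀ i, 0 ≤ Z3 i := by
    intro i
    have h1 : Sm U (fun _ : AbsoluteValue K ℝ => (0 : ℝ)) = 0 := by simp [Sm]
    rw [← h1]
    refine Sm_mono U fun f => Real.log_nonneg ?_
    simp only [hc3]
    linarith [n3 i f]
  refine ⟨|Z1| + |Z2| + ∑ i, Z3 i, fun t ht0 hU hFne => ?_⟩
  set x := pnt P Q t with hx
  have hsum3 : 0 ≤ ∑ i, Z3 i := Finset.sum_nonneg fun i _ => hZ3nn i
  have hxne : x ≠ 0 := by
    intro h
    have := congrFun h 2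
    simp [hx, pnt] at this
  -- integrality outside `U`
  have hint : ∀ v, v ∉ U → ∀ R : ℤ[X], fv v (aeval t R) ≤ 1 := by
    intro v hv R
    have hsum : aeval t R = ∑ i ∈ range (R.natDegree + 1), (R.coeff i : K) * t ^ i := by
      rw [aeval_def, eval₂_eq_sum_range]
      rfl
    rw [hsum]
    refine fv_sum_le v _ _ fun i _ => ?_
    rw [map_mul, map_pow, hU v hv, one_pow, mul_one]
    exact fv_int_le v _
  have hsup1 : ∀ v, v ∉ U → ⨆ j, fv v (x j) = 1 := by
    intro v hv
    refine le_antisymm (ciSup_le fun j => ?_) (one_le_sup (fv v) P Q t)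
    fin_cases j
    · exact hint v hv P
    · exact hint v hv Q
    · change fv v 1 ≤ 1
      rw [map_one]
  have hh : logHeight x = LamSup U x := height_eq U x hxne hsup1
  have hh1 : logHeight₁ t = Sm U fun f => Real.posLog (f t) :=
    height₁_eq U t fun v hv => (hU v hv).le
  have hsuppos : ∀ f : AbsoluteValue K ℝ, 0 < ⨆ j, f (x j) := fun f =>
    lt_of_lt_of_le one_pos (one_le_sup f P Q t)
  have hmaxpos : ∀ f : AbsoluteValue K ℝ, (0 : ℝ) < max 1 (f t) := fun f =>
    lt_of_lt_of_le one_pos (le_max_left _ _)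
  refine ⟨?_, ?_⟩
  · -- the height
    have h1 : LamSup U x ≤ Z1 + k * logHeight₁ t := by
      rw [LamSup_eq, hh1, ← Sm_smul, hZ1, ← Sm_add]
      refine Sm_mono U fun f => ?_
      have h2 := Real.log_le_log (hsuppos f) (hsup f t)
      rw [Real.log_mul (lt_of_lt_of_le one_pos (hc1 f)).ne' (pow_pos (hmaxpos f) k).ne',
        Real.log_pow] at h2
      rwa [posLog_abv]
    rw [hh]
    linarith [le_abs_self Z1, abs_nonneg Z2]
  · -- the proximity
    set term : ι → ℝ := fun i => d i * LamSup U x - Lam U (MvPolynomial.eval x (F i)) with hterm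
    have hnn : ∀ i, 0 ≤ term i + Z3 i := by
      intro i
      have h1 : Lam U (MvPolynomial.eval x (F i)) ≤ d i * LamSup U x + Z3 i := by
        rw [Lam_eq, LamSup_eq, ← Sm_smul, hZ3]
        simp only
        rw [← Sm_add]
        refine Sm_mono U fun f => ?_
        have h2 := abv_mv f (F i) (hF i) x
        have h3 : 0 < f (MvPolynomial.eval x (F i)) := f.pos_iff.2 (hFne i)
        have h4 : f (MvPolynomial.eval x (F i)) ≤ c3 i f * (⨆ j, f (x j)) ^ d i := by
          refine h2.trans (mul_le_mul_of_nonneg_right ?_ (pow_nonneg (hsuppos f).le _))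
          simp only [hc3]
          linarith
        have h5 := Real.log_le_log h3 h4
        have h6 : 0 < c3 i f := by
          simp only [hc3]
          linarith [n3 i f]
        rw [Real.log_mul h6.ne' (pow_pos (hsuppos f) _).ne', Real.log_pow] at h5
        linarith
      simp only [hterm]
      linarith
    have h1 : term i1 = 2 * LamSup U x := by
      have e1 : MvPolynomial.eval x (F i1) = -(t ^ k) := by
        rw [hF1]
        have e2 : aeval t P * aeval t Q = 1 - t ^ k := by
          rw [← map_mul, hPQ]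
          simp
        simp only [map_sub, map_mul, map_pow, MvPolynomial.eval_X, hx, pnt]
        simp only [Matrix.cons_val_zero, Matrix.cons_val_one, Matrix.cons_val]
        rw [e2]
        ring
      have e3 : Lam U (MvPolynomial.eval x (F i1)) = 0 := by
        rw [e1]
        refine Lam_eq_zero U (neg_ne_zero.2 (pow_ne_zero k ht0)) fun v hv => ?_
        rw [map_neg_eq_map, map_pow, hU v hv, one_pow]
      simp only [hterm]
      rw [e3, hd1]
      push_cast
      ring
    have h2 : term i2 = LamSup U x := by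
      have e1 : MvPolynomial.eval x (F i2) = 1 := by
        rw [hF2, MvPolynomial.eval_X]
        simp [hx, pnt]
      have e3 : Lam U (MvPolynomial.eval x (F i2)) = 0 := by
        rw [e1]
        simp [Lam]
      simp only [hterm]
      rw [e3, hd2]
      push_cast
      ring
    have h3 : logHeight₁ t - Z2 ≤ term i3 := by
      have e1 : MvPolynomial.eval x (F i3) = t * W.eval t := by
        rw [hF3, ← hW]
        simp only [map_sub, map_add, map_mul, MvPolynomial.eval_X, MvPolynomial.eval_C, hx, pnt]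
        simp only [Matrix.cons_val_zero, Matrix.cons_val_one, Matrix.cons_val]
        ring
      have hne := hFne i3
      have hW0 : W.eval t ≠ 0 := by
        intro h
        rw [e1, h, mul_zero] at hne
        exact hne rfl
      have hd3 : d i3 = 1 := by
        refine MvPolynomial.IsHomogeneous.inj_right (hF i3) ?_ (fun h => hne (by rw [h, map_zero]))
        rw [hF3]
        refine MvPolynomial.IsHomogeneous.sub (MvPolynomial.IsHomogeneous.add ?_ ?_) ?_
        · simpa using (MvPolynomial.isHomogeneous_C (Fin 3) α).mul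
            (MvPolynomial.isHomogeneous_X K 0)
        · simpa using (MvPolynomial.isHomogeneous_C (Fin 3) β).mul
            (MvPolynomial.isHomogeneous_X K 1)
        · simpa using (MvPolynomial.isHomogeneous_C (Fin 3) (α + β)).mul
            (MvPolynomial.isHomogeneous_X K 2)
      have e3 : Lam U (MvPolynomial.eval x (F i3)) = Lam U (W.eval t) := by
        rw [e1, Lam_mul U ht0 hW0, Lam_eq_zero U ht0 hU, zero_add]
      have e4 : Lam U (W.eval t) + logHeight₁ t ≤ Z2 + LamSup U x := by
        rw [Lam_eq, LamSup_eq, hh1, hZ2, ← Sm_add, ← Sm_add]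
        refine Sm_mono U fun f => ?_
        have g1 : 0 < f (W.eval t) := f.pos_iff.2 hW0
        have g2 := Real.log_le_log (mul_pos g1 (hmaxpos f)) (hWle f t)
        rw [Real.log_mul g1.ne' (hmaxpos f).ne',
          Real.log_mul (lt_of_lt_of_le one_pos (hc2 f)).ne' (hsuppos f).ne'] at g2
        rwa [posLog_abv]
      simp only [hterm]
      rw [e3, hd3]
      push_cast
      linarith
    have h4 : ∑ i ∈ ({i1, i2, i3} : Finset ι), (term i + Z3 i) ≤ ∑ i, (term i + Z3 i) :=
      Finset.sum_le_sum_of_subset_of_nonneg (Finset.subset_univ _) fun i _ _ => hnn i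
    rw [Finset.sum_insert (by simp [h12, h13]), Finset.sum_insert (by simp [h23]),
      Finset.sum_singleton, Finset.sum_add_distrib, h1, h2] at h4
    rw [hh]
    have e : ∑ i, term i = univ.sum term := rfl
    rw [e]
    have := hZ3nn i1
    have := hZ3nn i2
    have := hZ3nn i3
    linarith [le_abs_self Z2, abs_nonneg Z1]

end Pool.Agent.W231.M
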