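import Mathlib

set_option autoImplicit false

/-!
Factorisations of `1 - X ^ k` over the integers.
-/

namespace Pool.Agent.W231.M

open Polynomial Finset

/-- the cyclotomic polynomial with constant term `1` -/
noncomputable def psi (d : ℕ) : ℤ[X] := if d = 1 then 1 - X else cyclotomic d ℤ

/-- the product of the cyclotomic polynomials (with constant term `1`) of orders in `T` -/
noncomputable def fac (T : Finset ℕ) : ℤ[X] := ∏ d ∈ T, psi d

lemma psi_eval_zero {d : ℕ} (hd : 1 ≤ d) : (psi d).eval 0 = 1 := by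
  unfold psi
  split_ifs with h
  · simp
  · rw [← coeff_zero_eq_eval_zero]
    exact cyclotomic_coeff_zero ℤ (by omega)

lemma prod_psi {k : ℕ} (hk : 1 ≤ k) : fac k.divisors = 1 - X ^ k := by
  have h1 := prod_cyclotomic_eq_X_pow_sub_one (Nat.pos_of_ne_zero (by omega : k ≠ 0)) ℤ
  have hmem : 1 ∈ k.divisors := Nat.one_mem_divisors.2 (by omega)
  unfold fac
  rw [← Finset.mul_prod_erase _ _ hmem] at h1 ⊢
  have h2 : ∏ d ∈ k.divisors.erase 1, psi d = ∏ d ∈ k.divisors.erase 1, cyclotomic d ℤ := by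
    refine Finset.prod_congr rfl fun d hd => ?_
    rw [psi, if_neg (Finset.ne_of_mem_erase hd)]
  rw [h2, psi, if_pos rfl]
  rw [cyclotomic_one] at h1
  linear_combination -h1

lemma fac_mul {k : ℕ} (hk : 1 ≤ k) {T : Finset ℕ} (hT : T ⊆ k.divisors) :
    fac T * fac (k.divisors \ T) = 1 - X ^ k := by
  rw [← prod_psi hk]
  unfold fac
  rw [mul_comm]
  exact Finset.prod_sdiff hT

lemma fac_eval_zero {k : ℕ} {T : Finset ℕ} (hT : T ⊆ k.divisors) : (fac T).eval 0 = 1 := by
  unfold fac
  rw [eval_prod]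
  exact Finset.prod_eq_one fun d hd => psi_eval_zero (Nat.pos_of_mem_divisors (hT hd))

lemma one_sub_pow_ne {k : ℕ} (hk : 1 ≤ k) : (1 - X ^ k : ℤ[X]) ≠ 0 := by
  intro h
  have := congrArg (eval 0) h
  simp [show k ≠ 0 by omega] at this

lemma natDegree_one_sub_pow {k : ℕ} : (1 - X ^ k : ℤ[X]).natDegree ≤ k := by
  compute_degree

lemma fac_natDegree {k : ℕ} (hk : 1 ≤ k) {T : Finset ℕ} (hT : T ⊆ k.divisors) :
    (fac T).natDegree ≤ k := by
  have h1 := fac_mul hk hT
  have h0 := one_sub_pow_ne hk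
  rw [← h1] at h0
  have h2 := natDegree_mul (left_ne_zero_of_mul h0) (right_ne_zero_of_mul h0)
  rw [h1] at h2
  have := natDegree_one_sub_pow (k := k)
  omega

lemma psi_root {d e : ℕ} (hd : 1 ≤ d) (he : 1 ≤ e) :
    aeval (Complex.exp (2 * Real.pi * Complex.I / d)) (psi e) = 0 ↔ e = d := by
  have hζ := Complex.isPrimitiveRoot_exp d (by omega)
  set ζ := Complex.exp (2 * Real.pi * Complex.I / d) with hζd
  unfold psi
  split_ifs with h
  · subst h
    rw [map_sub, map_one, aeval_X, sub_eq_zero]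
    constructor
    · intro h1
      rw [← h1] at hζ
      exact (IsPrimitiveRoot.unique hζ IsPrimitiveRoot.one).symm
    · intro h1
      subst h1
      have := hζ.pow_eq_one
      rw [pow_one] at this
      exact this.symm
  · have h1 : aeval ζ (cyclotomic e ℤ) = (cyclotomic e ℂ).eval ζ := by
      rw [aeval_def, eval₂_eq_eval_map, map_cyclotomic]
    rw [h1]
    have h2 : (cyclotomic e ℂ).eval ζ = 0 ↔ IsPrimitiveRoot ζ e := by
      rw [← isRoot_cyclotomic_iff_charZero (by omega : 0 < e)]
      rfl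
    rw [h2]
    constructor
    · intro h3
      exact IsPrimitiveRoot.unique h3 hζ
    · rintro rfl
      exact hζ

lemma fac_root {k d : ℕ} (hd : 1 ≤ d) {T : Finset ℕ} (hT : T ⊆ k.divisors) :
    aeval (Complex.exp (2 * Real.pi * Complex.I / d)) (fac T) = 0 ↔ d ∈ T := by
  unfold fac
  rw [map_prod, Finset.prod_eq_zero_iff]
  constructor
  · rintro ⟨e, he, h⟩
    have := (psi_root hd (Nat.pos_of_mem_divisors (hT he))).1 h
    rwa [← this]
  · intro h
    exact ⟨d, h, (psi_root hd hd).2 rfl⟩

lemma fac_inj {k : ℕ} {T T' : Finset ℕ} (hT : T ⊆ k.divisors) (hT' : T' ⊆ k.divisors)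
    (h : fac T = fac T') : T = T' := by
  ext d
  by_cases hd : 1 ≤ d
  · rw [← fac_root hd hT, ← fac_root hd hT', h]
  · constructor
    · intro h1
      exact absurd (Nat.pos_of_mem_divisors (hT h1)) hd
    · intro h1
      exact absurd (Nat.pos_of_mem_divisors (hT' h1)) hd

/-- the finite set of all the factors -/
noncomputable def facs (k : ℕ) : Finset ℤ[X] := k.divisors.powerset.image fac

lemma card_facs (k : ℕ) : (facs k).card = 2 ^ k.divisors.card := by
  unfold facs
  rw [Finset.card_image_of_injOn, Finset.card_powerset]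
  intro T hT T' hT' h
  rw [Finset.mem_coe, Finset.mem_powerset] at hT hT'
  exact fac_inj hT hT' h

end Pool.Agent.W231.M
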