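import Pool.Agent.W231.M.Cyc
import Pool.Agent.W231.V.Alg2

set_option autoImplicit false

/-!
A form of small degree does not vanish on too many of the curves `x y = 1 - t ^ k`.
-/

namespace Pool.Agent.W231.M

open Polynomial Finset

variable {Ω : Type*} [Field Ω]

/-- the restriction of `G` to the curve parametrised by `(P : Q : 1)` -/
noncomputable def rst (P Q : ℤ[X]) (G : MvPolynomial (Fin 3) Ω) : Polynomial Ω :=
  MvPolynomial.eval₂ C ![P.map (Int.castRingHom Ω), Q.map (Int.castRingHom Ω), 1] G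

lemma rst_eval (P Q : ℤ[X]) (G : MvPolynomial (Fin 3) Ω) (t : Ω) :
    (rst P Q G).eval t = MvPolynomial.eval ![aeval t P, aeval t Q, 1] G := by
  have h1 : (rst P Q G).eval t = evalRingHom t (rst P Q G) := rfl
  rw [h1, rst, MvPolynomial.hom_eval₂]
  have h2 : (evalRingHom t).comp C = RingHom.id Ω := by ext c; simp
  rw [h2]
  change _ = MvPolynomial.eval₂ (RingHom.id Ω) _ G
  congr 1
  funext j
  fin_cases j
  · simp [aeval_def, eval_map]
  · simp [aeval_def, eval_map]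
  · simp

lemma hom_eval {G : MvPolynomial (Fin 3) Ω} {D : ℕ} (hG : G.IsHomogeneous D) (c : Ω)
    (x : Fin 3 → Ω) : MvPolynomial.eval (fun j => c * x j) G = c ^ D * MvPolynomial.eval x G :=
  V.hom_eval₂ (RingHom.id Ω) hG c x

theorem card_le [CharZero Ω] (G : MvPolynomial (Fin 3) Ω) {D : ℕ} (hG : G ≠ 0) (hGD : G.IsHomogeneous D)
    {k : ℕ} (hk : 1 ≤ k) (𝒯 : Finset ℤ[X])
    (h : ∀ P ∈ 𝒯, ∃ Q : ℤ[X], P * Q = 1 - X ^ k ∧ rst P Q G = 0) : 𝒯.card ≤ 2 * D := by
  classical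
  -- a point with `x ≠ 0`, `z = 1`
  obtain ⟨u, v, hu, huv⟩ : ∃ u v : Ω, u ≠ 0 ∧ MvPolynomial.eval ![u, v, 1] G ≠ 0 := by
    have h1 : G * (MvPolynomial.X 0 * MvPolynomial.X 2) ≠ 0 :=
      mul_ne_zero hG (mul_ne_zero (MvPolynomial.X_ne_zero 0) (MvPolynomial.X_ne_zero 2))
    obtain ⟨x, hx⟩ : ∃ x : Fin 3 → Ω,
        MvPolynomial.eval x (G * (MvPolynomial.X 0 * MvPolynomial.X 2)) ≠ 0 := by
      by_contra hcon
      push Not at hcon
      apply h1
      exact MvPolynomial.funext fun x => by rw [hcon x, map_zero]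
    rw [map_mul, map_mul, MvPolynomial.eval_X, MvPolynomial.eval_X] at hx
    have hx0 : x 0 ≠ 0 := fun h => hx (by rw [h]; ring)
    have hx2 : x 2 ≠ 0 := fun h => hx (by rw [h]; ring)
    have hGx : MvPolynomial.eval x G ≠ 0 := fun h => hx (by rw [h]; ring)
    refine ⟨x 0 / x 2, x 1 / x 2, div_ne_zero hx0 hx2, fun h0 => hGx ?_⟩
    have h2 := hom_eval hGD (x 2) ![x 0 / x 2, x 1 / x 2, 1]
    rw [h0, mul_zero] at h2
    rw [← h2]
    refine congrArg (fun y => MvPolynomial.eval y G) (funext fun j => ?_)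
    fin_cases j
    · simp; field_simp
    · simp; field_simp
    · simp
  -- the polynomial in `y`
  set g : Polynomial Ω := MvPolynomial.eval₂ C ![C u, X, 1] G with hg
  have hgev : ∀ y : Ω, g.eval y = MvPolynomial.eval ![u, y, 1] G := by
    intro y
    have h1 : g.eval y = evalRingHom y g := rfl
    rw [h1, hg, MvPolynomial.hom_eval₂]
    have h2 : (evalRingHom y).comp C = RingHom.id Ω := by ext c; simp
    rw [h2]
    change _ = MvPolynomial.eval₂ (RingHom.id Ω) _ G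
    congr 1
    funext j
    fin_cases j <;> simp
  have hg0 : g ≠ 0 := by
    intro h0
    apply huv
    rw [← hgev, h0, eval_zero]
  -- the first bad set
  have hbad1 : {t : ℕ | g.eval ((1 - (t : Ω) ^ k) / u) = 0}.Finite := by
    have h1 : {t : ℕ | g.eval ((1 - (t : Ω) ^ k) / u) = 0} =
        (fun t : ℕ => (1 - (t : Ω) ^ k) / u) ⁻¹' {y | g.IsRoot y} := rfl
    rw [h1]
    refine Set.Finite.preimage (fun t _ t' _ htt => ?_) (Polynomial.finite_setOfPred_isRoot hg0)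
    have h2 : (1 - (t : Ω) ^ k) / u = (1 - (t' : Ω) ^ k) / u := htt
    rw [div_left_inj' hu, sub_right_inj] at h2
    have h3 : t ^ k = t' ^ k := by exact_mod_cast h2
    exact Nat.pow_left_injective (n := k) (by omega) h3
  -- the second bad set
  have hbad2 : {t : ℕ | ∃ P ∈ 𝒯, ∃ P' ∈ 𝒯, P ≠ P' ∧ P.eval (t : ℤ) = P'.eval (t : ℤ)}.Finite := by
    have h1 : {t : ℕ | ∃ P ∈ 𝒯, ∃ P' ∈ 𝒯, P ≠ P' ∧ P.eval (t : ℤ) = P'.eval (t : ℤ)} ⊆
        ⋃ P ∈ 𝒯, ⋃ P' ∈ 𝒯, {t : ℕ | P ≠ P' ∧ P.eval (t : ℤ) = P'.eval (t : ℤ)} := by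
      rintro t ⟨P, hP, P', hP', hne, heq⟩
      simp only [Set.mem_iUnion]
      exact ⟨P, hP, P', hP', hne, heq⟩
    refine (Set.Finite.biUnion 𝒯.finite_toSet fun P _ => Set.Finite.biUnion 𝒯.finite_toSet
      fun P' _ => ?_).subset h1
    by_cases hne : P = P'
    · convert Set.finite_empty using 1
      ext t
      simp [hne]
    · have h2 : {t : ℕ | P ≠ P' ∧ P.eval (t : ℤ) = P'.eval (t : ℤ)} ⊆
          (fun t : ℕ => (t : ℤ)) ⁻¹' {y | (P - P').IsRoot y} := by
        rintro t ⟨_, heq⟩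
        simp [IsRoot, heq]
      refine (Set.Finite.preimage (fun t _ t' _ htt => ?_)
        (Polynomial.finite_setOfPred_isRoot (sub_ne_zero.2 hne))).subset h2
      exact_mod_cast htt
  obtain ⟨t, ht⟩ := (Set.infinite_univ (α := ℕ)).exists_notMem_finset
    ((hbad1.toFinset ∪ hbad2.toFinset) ∪ {0, 1})
  simp only [Finset.mem_union, Set.Finite.mem_toFinset, Finset.mem_insert, Finset.mem_singleton,
    not_or] at ht
  obtain ⟨-, ⟨ht1, ht2⟩, ht3, ht4⟩ := ht
  have ht1' : g.eval ((1 - (t : Ω) ^ k) / u) ≠ 0 := ht1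
  have hs : (1 - (t : Ω) ^ k) ≠ 0 := by
    intro h0
    rw [sub_eq_zero] at h0
    have h3 : t ^ k = 1 := by exact_mod_cast h0.symm
    rw [Nat.pow_eq_one] at h3
    omega
  -- the polynomial on the hyperbola
  set E : Polynomial Ω := MvPolynomial.eval₂ C ![X ^ 2, C (1 - (t : Ω) ^ k), X] G with hE
  have hEev : ∀ w : Ω, w ≠ 0 → E.eval w =
      w ^ D * MvPolynomial.eval ![w, (1 - (t : Ω) ^ k) / w, 1] G := by
    intro w hw
    have h1 : E.eval w = evalRingHom w E := rfl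
    rw [h1, hE, MvPolynomial.hom_eval₂, ← hom_eval hGD]
    have h2 : (evalRingHom w).comp C = RingHom.id Ω := by ext c; simp
    rw [h2]
    change _ = MvPolynomial.eval₂ (RingHom.id Ω) _ G
    congr 1
    funext j
    fin_cases j
    · simp; ring
    · simp; field_simp
    · simp
  have hE0 : E ≠ 0 := by
    intro h0
    have h1 := hEev u hu
    rw [h0, eval_zero] at h1
    apply ht1'
    rw [hgev]
    exact (mul_eq_zero.1 h1.symm).resolve_left (pow_ne_zero _ hu)
  have hEdeg : E.natDegree ≤ 2 * D := by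
    have h1 := MvPolynomial.aeval_natDegree_le (m := D) (n := 2) G hGD.totalDegree_le
      ![(X : Polynomial Ω) ^ 2, C (1 - (t : Ω) ^ k), X] (fun j => by
        fin_cases j
        · simp
        · change (C (1 - (t : Ω) ^ k) : Polynomial Ω).natDegree ≤ 2
          rw [natDegree_C]
          exact Nat.zero_le _
        · simp)
    rw [MvPolynomial.aeval_def] at h1
    have h2 : MvPolynomial.eval₂ (algebraMap Ω (Polynomial Ω)) ![(X : Polynomial Ω) ^ 2, C (1 - (t : Ω) ^ k), X] G = E :=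
      rfl
    rw [h2] at h1
    omega
  -- the roots
  have hroot : ∀ P ∈ 𝒯, E.IsRoot ((P.eval (t : ℤ) : ℤ) : Ω) := by
    intro P hP
    obtain ⟨Q, hPQ, hr⟩ := h P hP
    have e1 : ∀ R : ℤ[X], aeval (t : Ω) R = ((R.eval (t : ℤ) : ℤ) : Ω) := by
      intro R
      have : ((t : ℕ) : Ω) = algebraMap ℤ Ω (t : ℤ) := by simp
      rw [this, aeval_algebraMap_apply]
      simp
    have e2 : ((P.eval (t : ℤ) : ℤ) : Ω) * ((Q.eval (t : ℤ) : ℤ) : Ω) = 1 - (t : Ω) ^ k := by
      rw [← Int.cast_mul, ← eval_mul, hPQ]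
      simp
    have hw : ((P.eval (t : ℤ) : ℤ) : Ω) ≠ 0 := by
      intro h0
      rw [h0, zero_mul] at e2
      exact hs e2.symm
    have e3 : ((Q.eval (t : ℤ) : ℤ) : Ω) = (1 - (t : Ω) ^ k) / ((P.eval (t : ℤ) : ℤ) : Ω) := by
      rw [eq_div_iff hw, mul_comm]
      exact e2
    rw [IsRoot.def, hEev _ hw, ← e3, ← e1, ← e1, ← rst_eval, hr, eval_zero, mul_zero]
  have hinj : Set.InjOn (fun P : ℤ[X] => ((P.eval (t : ℤ) : ℤ) : Ω)) 𝒯 := by
    intro P hP P' hP' heq
    by_contra hne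
    apply ht2
    refine ⟨P, hP, P', hP', hne, ?_⟩
    have heq' : ((P.eval (t : ℤ) : ℤ) : Ω) = ((P'.eval (t : ℤ) : ℤ) : Ω) := heq
    exact_mod_cast heq'
  calc 𝒯.card = (𝒯.image fun P : ℤ[X] => ((P.eval (t : ℤ) : ℤ) : Ω)).card :=
        (Finset.card_image_of_injOn hinj).symm
    _ ≤ E.roots.toFinset.card := by
        refine Finset.card_le_card fun w hw => ?_
        obtain ⟨P, hP, rfl⟩ := Finset.mem_image.1 hw
        rw [Multiset.mem_toFinset, mem_roots hE0]
        exact hroot P hP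
    _ ≤ E.roots.card := Multiset.toFinset_card_le _
    _ ≤ E.natDegree := card_roots' _
    _ ≤ 2 * D := hEdeg

end Pool.Agent.W231.M
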